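import Pool.Agent.TH942.RZ.Curve
import Pool.Agent.TH942.RZ.Self

/-!
# Riesz means: a numerical form of the conjecture equivalent to the rank form and the Riemann hypothesis

Let `C : y² = x³ + a x + b` be an elliptic curve over `ℚ`, `a, b ∈ ℤ`, let `N_p` be the number of affine
points modulo a prime `p ∤ 2Δ`, and let `N(X)` be the number of rational points of `C` (with the point at
infinity) whose `x`-coordinate `m/n` has `max (|m|, n) ≤ X`, so that `N(X)² ≍ (log X)^rank`. Birch and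
Swinnerton-Dyer were led to their conjecture by the comparison of `N(X)²` with `∏_{p ≤ X} (N_p + 1)/p`. Goldfeld
(1982) proved that an asymptotic formula for this product implies the Riemann hypothesis for `C`; whether the
rank form and the Riemann hypothesis imply it is not known.

For real `k > 0` let `Π_k(X) = ∏_{p ≤ X, p ∤ 2Δ} ((N_p + 1)/p) ^ ((1 - log p / log X)^k)` (`k = 0` is the
original product; `log Π_k` is the Riesz mean of order `k`, in `log X`, of its logarithm). It is shown that the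
following are EQUIVALENT for every curve:

* the order of vanishing of the `L`-function at `1` is the rank, and the `L`-function has no zeros with
  `Re s > 1` (by the functional equation this is the Riemann hypothesis for `C`);
* for every `k > 0` the quotient `N(X)² / Π_k(X)` tends to a positive limit;
* `N(X)²` is of the order of `Π_k(X)` for one `k > 0`;
* `N(X)²` is of the order of a product `∏_{p ≤ X^β} ((N_p + 1)/p) ^ w(log p / log X)` for ONE bounded measurable
  weight `w` on `(0, β]`, not almost everywhere zero near `β`, with `∫_0 |w(u) - 1| du/u < ∞`;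
* for one such weight the logarithm of the quotient is `o(log log X)`.

Proof. Law ⇒ zeros: the Laplace transform in `T = log X` of `log Π_w(e^T)` would continue beyond the outermost
zero on a ray. Zeros ⇒ law: `log Π_k(e^T) = Γ(k+1) (2πi)⁻¹ ∫ D(z/T) e^z z^{-k-1} dz` over `Re z = 1`, where
`D(s) = ∑ log ((N_p + 1)/p) p^{-s} = - log L(C, 1 + s) + O(1 + log (1 + |s|/Re s))`. The modular form gives
`|L(C, 1 + s)| ≤ C |s| (Re s)^{-2}` (partial sums `O(x log x)` of its coefficients), and for `log L(C, 1 + s)`, of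
which only the real part is bounded above, Poisson's formula and the theorem of Borel and Carathéodory give
`∫ |log L(C, 1 + x + it)| (1 + |t|)^{-1-k} dt = O(log² (1/x))`, which suffices for every `k > 0`. The second order
terms are controlled by the theorem of Rankin and Selberg.
-/

set_option autoImplicit false

namespace Pool.Agent.Results.MP_696deb_nt.RieszLaw

open Pool.Agent.W263.BSD Filter Topology Classical MeasureTheory
open CongruenceSubgroup UpperHalfPlane
open scoped MatrixGroups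

/-- The rank of the group of rational points of `y² = x³ + a x + b`. -/
noncomputable def rank (a b : ℤ) : ℕ :=
  Module.finrank ℤ
    (WeierstrassCurve.Affine.Point
      (WeierstrassCurve.toAffine
        ({ a₁ := 0, a₂ := 0, a₃ := 0, a₄ := (a : ℚ), a₆ := (b : ℚ) } : WeierstrassCurve ℚ)))

/-- The number of rational points of `y² = x³ + a x + b`, the point at infinity included, with
`max (|m|, n) ≤ X` for the `x`-coordinate `m / n` in lowest terms. -/
noncomputable def pointsUpTo (a b : ℤ) (X : ℝ) : ℕ :=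
  Nat.card {P : ℚ × ℚ // P.2 ^ 2 = P.1 ^ 3 + a * P.1 + b ∧
    (max P.1.num.natAbs P.1.den : ℝ) ≤ X} + 1

/-- `Π_k(X)`: the product over the primes `p ≤ X`, `p ∤ 2Δ`, of the powers of `(N_p + 1) / p` with
exponents `(1 - log p / log X)^k`. -/
noncomputable def rieszProduct (a b : ℤ) (k X : ℝ) : ℝ :=
  ∏ p ∈ (Finset.range (⌊X⌋₊ + 1)).filter (GoodPrime a b),
    (((pointCount a b p : ℝ) + 1) / p) ^ ((1 - Real.log p / Real.log X) ^ k)

/-- `Π_w(X)`: the product over the primes `p ≤ X^β`, `p ∤ 2Δ`, of the powers of `(N_p + 1) / p` with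
exponents `w(log p / log X)`. -/
noncomputable def localProduct (a b : ℤ) (w : ℝ → ℝ) (β X : ℝ) : ℝ :=
  ∏ p ∈ (Finset.range (⌊X ^ β⌋₊ + 1)).filter (GoodPrime a b),
    (((pointCount a b p : ℝ) + 1) / p) ^ w (Real.log p / Real.log X)

/-- The admissible weights on `(0, β]`: bounded and measurable, not almost everywhere `0` on any interval
`(κ, β)`, with `∫_0^β |w(u) - 1| du/u < ∞`. -/
structure IsWeight (β : ℝ) (w : ℝ → ℝ) : Prop where
  pos : 0 < β
  meas : Measurable w
  bdd : ∃ W : ℝ, ∀ u : ℝ, 0 < u → u ≤ β → |w u| ≤ W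
  top : ∀ κ : ℝ, κ < β → ¬ ∀ᵐ u : ℝ, u ∈ Set.Ioo κ β → w u = 0
  dini : IntegrableOn (fun u : ℝ => |w u - 1| / u) (Set.Ioo 0 β)

/-- The `n`-th Fourier coefficient of `f`. -/
noncomputable def coef {N : ℕ} (f : CuspForm (Gamma0 N : Subgroup (GL (Fin 2) ℝ)) 2) (n : ℕ) : ℂ :=
  (qExpansion 1 f).coeff n

/-- `f ∈ S_2(Γ₀(N))` is the newform of the elliptic curve `E : y² = x³ + a x + b` of conductor `N`: the
Fourier coefficients `c(n)` of `f` are real with `c(1) = 1`, they satisfy the Hecke relations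
`c(mn) = c(m) c(n)` for coprime `m`, `n` and `c(p^(j+2)) = c(p) c(p^(j+1)) - p c(p^j)` (without the last
term if `p ∣ N`), `c(p) = a_p = p - N_p` (`N_p` affine points) for all primes `p ∤ 2Δ`, `|c(p)| ≤ 2 √p` for
all `p ∤ N` (Hasse) and `c(p) = 0, 1, -1` for `p ∣ N`. -/
structure IsNewformOf (a b : ℤ) (N : ℕ) (f : CuspForm (Gamma0 N : Subgroup (GL (Fin 2) ℝ)) 2) :
    Prop where
  one : coef f 1 = 1
  real : ∀ n, (coef f n).im = 0
  mul : ∀ m n : ℕ, Nat.Coprime m n → coef f (m * n) = coef f m * coef f n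
  pow : ∀ p j : ℕ, p.Prime → coef f (p ^ (j + 2)) = coef f p * coef f (p ^ (j + 1)) -
      (if p ∣ N then 0 else (p : ℂ) * coef f (p ^ j))
  points : ∀ p : ℕ, GoodPrime a b p → coef f p = (p : ℂ) - (pointCount a b p : ℂ)
  good : ∀ p : ℕ, p.Prime → ¬ p ∣ N → ‖coef f p‖ ≤ 2 * Real.sqrt p
  bad : ∀ p : ℕ, p.Prime → p ∣ N → coef f p = 0 ∨ coef f p = 1 ∨ coef f p = -1

variable {a b : ℤ} {F : ℂ → ℂ}

theorem hecke {N : ℕ} {f : CuspForm (Gamma0 N : Subgroup (GL (Fin 2) ℝ)) 2}
    (hf : IsNewformOf a b N f) : Pool.Agent.TH941.Hecke f where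
  one := hf.one
  real := hf.real
  mul := hf.mul
  pow := hf.pow
  good := hf.good
  bad := fun p hp h => by
    rcases hf.bad p hp h with h1 | h1 | h1
    · have h2 : ‖coef f p‖ ≤ 1 := by rw [h1]; simp
      exact h2
    · have h2 : ‖coef f p‖ ≤ 1 := by rw [h1]; simp
      exact h2
    · have h2 : ‖coef f p‖ ≤ 1 := by rw [h1]; simp
      exact h2

theorem rs {N : ℕ} [NeZero N] {f : CuspForm (Gamma0 N : Subgroup (GL (Fin 2) ℝ)) 2}
    (hΔ : 4 * a ^ 3 + 27 * b ^ 2 ≠ 0) (hf : IsNewformOf a b N f) :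
    Tendsto (Pool.Agent.W263.BSD.rsSum a b) atTop (𝓝 0) :=
  (hecke hf).rsSum_tendsto hΔ fun p hp => hf.points p hp

theorem loglog_tendsto : Tendsto (fun X : ℝ => Real.log (Real.log X)) atTop atTop :=
  Real.tendsto_log_atTop.comp Real.tendsto_log_atTop

theorem factor_pos {p : ℕ} (hp : GoodPrime a b p) : 0 < ((pointCount a b p : ℝ) + 1) / p := by
  have hp0 : (0 : ℝ) < p := by exact_mod_cast hp.1.pos
  positivity

theorem rieszProduct_pos (a b : ℤ) (k X : ℝ) : 0 < rieszProduct a b k X :=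
  Finset.prod_pos fun _ hp => Real.rpow_pos_of_pos (factor_pos (Finset.mem_filter.1 hp).2) _

theorem localProduct_pos (a b : ℤ) (w : ℝ → ℝ) (β X : ℝ) : 0 < localProduct a b w β X :=
  Finset.prod_pos fun _ hp => Real.rpow_pos_of_pos (factor_pos (Finset.mem_filter.1 hp).2) _

theorem log_rieszProduct (a b : ℤ) (k X : ℝ) :
    Real.log (rieszProduct a b k X) = TH942.RZ.rz a b k X := by
  unfold rieszProduct TH942.RZ.rz
  rw [Real.log_prod fun p hp => (Real.rpow_pos_of_pos (factor_pos (Finset.mem_filter.1 hp).2) _).ne']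
  refine Finset.sum_congr rfl fun p hp => ?_
  rw [Real.log_rpow (factor_pos (Finset.mem_filter.1 hp).2)]

/-- the Riesz weight is admissible -/
theorem riesz_weight {k : ℝ} (hk : 0 < k) : IsWeight 1 (TH942.RZ.rzv k) where
  pos := one_pos
  meas := (TH942.RZ.rzv_Wt hk).meas
  bdd := ⟨1, fun u _ _ => (TH942.RZ.rzv_Wt hk).bd u⟩
  top := TH942.RZ.rzv_top
  dini := TH942.RZ.rzv_dini hk

theorem riesz_eq_local {k : ℝ} {X : ℝ} (hX : 1 < X) :
    rieszProduct a b k X = localProduct a b (TH942.RZ.rzv k) 1 X := by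
  unfold rieszProduct localProduct
  rw [Real.rpow_one]
  refine Finset.prod_congr rfl fun p hp => ?_
  obtain ⟨h1, h2⟩ := Finset.mem_filter.1 hp
  have hT : 0 < Real.log X := Real.log_pos hX
  have hp1 : (1 : ℝ) < p := by exact_mod_cast h2.1.one_lt
  have h3 : (p : ℝ) ≤ X := by
    rw [Finset.mem_range, Nat.lt_succ_iff] at h1
    exact (Nat.le_floor_iff (by linarith)).1 h1
  have h4 : Real.log p / Real.log X ≤ 1 := by
    rw [div_le_one hT]
    exact Real.log_le_log (by linarith) h3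
  have h5 : 0 < Real.log p / Real.log X := div_pos (Real.log_pos hp1) hT
  unfold TH942.RZ.rzv
  rw [Set.indicator_of_mem (show Real.log p / Real.log X ∈ Set.Ioc (0 : ℝ) 1 from ⟨h5, h4⟩)]
  unfold TH942.RZ.rzw
  rw [max_eq_left (by linarith)]

/-- the number of points, exactly -/
theorem points_exact (hΔ : 4 * a ^ 3 + 27 * b ^ 2 ≠ 0) : ∃ κ : ℝ, 0 < κ ∧
    Tendsto (fun X : ℝ => (pointsUpTo a b X : ℝ) ^ 2 / Real.log X ^ (rank a b : ℝ)) atTop (𝓝 κ) := by
  obtain ⟨κ, hκ, h⟩ := TH942.ratCount_growth hΔ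
  refine ⟨κ ^ 2, by positivity, ?_⟩
  have h1 := h.pow 2
  refine h1.congr' ?_
  filter_upwards [eventually_gt_atTop 1] with X hX
  have hl : 0 < Real.log X := Real.log_pos hX
  rw [div_pow]
  have h7 : ((Real.log X) ^ ((Module.finrank ℤ (TH942.SPt (a : ℚ) (b : ℚ)) : ℝ) / 2)) ^ 2 =
      Real.log X ^ (rank a b : ℝ) := by
    rw [← Real.rpow_natCast, ← Real.rpow_mul hl.le]
    have : (rank a b : ℝ) = (Module.finrank ℤ (TH942.SPt (a : ℚ) (b : ℚ)) : ℝ) := rfl
    rw [this]
    congr 1
    push_cast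
    ring
  rw [h7]
  rfl

/-- **The rank form together with the Riemann hypothesis is equivalent to the Riesz laws.** -/
theorem result (a b : ℤ) (hΔ : 4 * a ^ 3 + 27 * b ^ 2 ≠ 0) (F : ℂ → ℂ) (hF : IsLSeries a b F)
    (N : ℕ) [NeZero N] (f : CuspForm (Gamma0 N : Subgroup (GL (Fin 2) ℝ)) 2)
    (hf : IsNewformOf a b N f) : List.TFAE [
      analyticOrderAt F 1 = rank a b ∧ ∀ s : ℂ, 1 < s.re → F s ≠ 0,
      ∀ k : ℝ, 0 < k → ∃ L : ℝ, 0 < L ∧
        Tendsto (fun X : ℝ => (pointsUpTo a b X : ℝ) ^ 2 / rieszProduct a b k X) atTop (𝓝 L),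
      ∃ k : ℝ, 0 < k ∧ ∃ A B : ℝ, 0 < A ∧ 0 < B ∧ ∀ᶠ X : ℝ in atTop,
        A * rieszProduct a b k X ≤ (pointsUpTo a b X : ℝ) ^ 2 ∧
        (pointsUpTo a b X : ℝ) ^ 2 ≤ B * rieszProduct a b k X,
      ∃ (β : ℝ) (w : ℝ → ℝ), IsWeight β w ∧ ∃ A B : ℝ, 0 < A ∧ 0 < B ∧ ∀ᶠ X : ℝ in atTop,
        A * localProduct a b w β X ≤ (pointsUpTo a b X : ℝ) ^ 2 ∧
        (pointsUpTo a b X : ℝ) ^ 2 ≤ B * localProduct a b w β X,
      ∃ (β : ℝ) (w : ℝ → ℝ), IsWeight β w ∧
        Tendsto (fun X : ℝ => Real.log ((pointsUpTo a b X : ℝ) ^ 2 / localProduct a b w β X) /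
          Real.log (Real.log X)) atTop (𝓝 0)] := by
  have hrs := rs hΔ hf
  have hgr := TH942.RZ.growth_newform hΔ hF (hecke hf) fun p hp => hf.points p hp
  have hself := fun (β : ℝ) (w : ℝ → ℝ) (hw : IsWeight β w) =>
    TH942.RZ.Self.self_similar a b hΔ F hF β hw.pos w hw.meas hw.bdd hw.top hw.dini
  obtain ⟨m, hm⟩ := Pool.Agent.W189.ML.order_finite_all hF 1
  tfae_have 1 → 2 := by
    rintro ⟨h1, h2⟩ k hk
    have hmr : rank a b = m := by
      rw [hm] at h1
      exact_mod_cast h1.symm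
    obtain ⟨κ, h3, -⟩ := TH942.RZ.curve_riesz hΔ hrs hgr hF hm h2 hk
    obtain ⟨κ', hκ', h4⟩ := points_exact hΔ
    refine ⟨κ' / Real.exp κ, by positivity, ?_⟩
    have h5 := (Real.continuous_exp.tendsto κ).comp (h3.comp Real.tendsto_log_atTop)
    have h6 := h4.div h5 (Real.exp_pos κ).ne'
    refine h6.congr' ?_
    filter_upwards [eventually_gt_atTop 1] with X hX
    have hl : 0 < Real.log X := Real.log_pos hX
    have hlr := Real.rpow_pos_of_pos hl (rank a b : ℝ)
    simp only [Pi.div_apply, Function.comp_apply]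
    rw [← TH942.RZ.rz_eq hk hX, ← log_rieszProduct, Real.exp_sub,
      Real.exp_log (rieszProduct_pos a b k X), mul_comm (m : ℝ), ← Real.rpow_def_of_pos hl, hmr]
    rw [hmr] at hlr
    have := rieszProduct_pos a b k X
    field_simp
  tfae_have 2 → 3 := by
    intro h
    obtain ⟨L, hL, h1⟩ := h 1 one_pos
    refine ⟨1, one_pos, L / 2, 2 * L, by positivity, by positivity, ?_⟩
    filter_upwards [h1.eventually_const_lt (by linarith : L / 2 < L),
      h1.eventually_lt_const (by linarith : L < 2 * L)] with X h2 h3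
    have hp := rieszProduct_pos a b 1 X
    rw [lt_div_iff₀ hp] at h2
    rw [div_lt_iff₀ hp] at h3
    exact ⟨h2.le, h3.le⟩
  tfae_have 3 → 4 := by
    rintro ⟨k, hk, A, B, hA, hB, h⟩
    refine ⟨1, TH942.RZ.rzv k, riesz_weight hk, A, B, hA, hB, ?_⟩
    filter_upwards [h, eventually_gt_atTop 1] with X h1 hX
    rw [riesz_eq_local hX] at h1
    exact h1
  tfae_have 4 → 5 := by
    rintro ⟨β, w, hw, A, B, hA, hB, h⟩
    refine ⟨β, w, hw, ?_⟩
    have hlo : Tendsto (fun X : ℝ => Real.log A / Real.log (Real.log X)) atTop (𝓝 0) :=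
      tendsto_const_nhds.div_atTop loglog_tendsto
    have hhi : Tendsto (fun X : ℝ => Real.log B / Real.log (Real.log X)) atTop (𝓝 0) :=
      tendsto_const_nhds.div_atTop loglog_tendsto
    refine tendsto_of_tendsto_of_tendsto_of_le_of_le' hlo hhi ?_ ?_
    · filter_upwards [h, loglog_tendsto.eventually (eventually_gt_atTop 0)] with X h1 h2
      apply div_le_div_of_nonneg_right _ h2.le
      exact Real.log_le_log hA ((le_div_iff₀ (localProduct_pos a b w β X)).2 h1.1)
    · filter_upwards [h, loglog_tendsto.eventually (eventually_gt_atTop 0)] with X h1 h2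
      apply div_le_div_of_nonneg_right _ h2.le
      have hpos : 0 < (pointsUpTo a b X : ℝ) ^ 2 := TH942.RZ.Self.points_pos a b X
      exact Real.log_le_log (div_pos hpos (localProduct_pos a b w β X))
        ((div_le_iff₀ (localProduct_pos a b w β X)).2 h1.2)
  tfae_have 5 → 1 := by
    rintro ⟨β, w, hw, h⟩
    obtain ⟨m', hm', -, h1, -⟩ := hself β w hw
    obtain ⟨h2, h3⟩ := h1 0 h
    refine ⟨?_, h2⟩
    have h4 : (TH942.RZ.Self.rank a b : ℝ) = m' := by linarith
    have h5 : TH942.RZ.Self.rank a b = m' := by exact_mod_cast h4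
    rw [hm', ← h5]
    rfl
  tfae_finish

end Pool.Agent.Results.MP_696deb_nt.RieszLaw
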